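import Mathlib
import Pool.Agent.H86.CMLib.W516.Casimir

/-!
# The Casimir form of a Lie algebra with nondegenerate trace form
-/

set_option linter.unusedSectionVars false

namespace Pool.Agent.W516.KC2

open Module Pool.Agent.H204R3.SP Pool.Agent.H204R3.GP Pool.Agent.W516.KC

noncomputable section

variable {k W : Type*} [Field k] [CharZero k] [AddCommGroup W] [Module k W] [FiniteDimensional k W]

/-- The trace form of `𝔥` is nondegenerate. -/
def TraceNondeg (𝔥 : Submodule k (Module.End k W)) : Prop :=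
  ∀ X ∈ 𝔥, (∀ Y ∈ 𝔥, LinearMap.trace k W (X * Y) = 0) → X = 0

variable (𝔥 : Submodule k (Module.End k W)) (hnt : TraceNondeg 𝔥) (ω : W →ₗ[k] W →ₗ[k] k)

include hnt in
theorem trace_nondeg {X : Module.End k W} (hX : X ∈ 𝔥)
    (htr : ∀ Y ∈ 𝔥, LinearMap.trace k W (X * Y) = 0) : X = 0 := hnt X hX htr

/-- The trace form on `𝔥`. -/
def trF : 𝔥 →ₗ[k] Module.Dual k 𝔥 :=
  LinearMap.mk₂ k (fun X Y => LinearMap.trace k W (X.1 * Y.1))
    (fun X X' Y => by
      change LinearMap.trace k W ((X.1 + X'.1) * Y.1) = _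
      rw [add_mul, map_add])
    (fun c X Y => by
      change LinearMap.trace k W ((c • X.1) * Y.1) = _
      rw [smul_mul_assoc, map_smul])
    (fun X Y Y' => by
      change LinearMap.trace k W (X.1 * (Y.1 + Y'.1)) = _
      rw [mul_add, map_add])
    (fun c X Y => by
      change LinearMap.trace k W (X.1 * (c • Y.1)) = _
      rw [mul_smul_comm, map_smul])

theorem trF_apply (X Y : 𝔥) : trF 𝔥 X Y = LinearMap.trace k W (X.1 * Y.1) := rfl

include hnt in
theorem trF_inj : Function.Injective (trF 𝔥) := by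
  rw [injective_iff_map_eq_zero]
  intro X hX
  refine Subtype.ext (trace_nondeg 𝔥 hnt X.2 fun Y hY => ?_)
  exact congrArg (fun f : Module.Dual k 𝔥 => f ⟨Y, hY⟩) hX

/-- The trace form as an isomorphism. -/
def trE : 𝔥 ≃ₗ[k] Module.Dual k 𝔥 :=
  LinearMap.linearEquivOfInjective (trF 𝔥) (trF_inj 𝔥 hnt)
    (Subspace.dual_finrank_eq (K := k) (V := 𝔥)).symm

/-- The functional `X ↦ ω (X u) v`. -/
def fun2 : W →ₗ[k] W →ₗ[k] Module.Dual k 𝔥 :=
  LinearMap.mk₂ k (fun u v =>
    { toFun := fun X => ω (X.1 u) v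
      map_add' := fun X Y => by
        change ω (X.1 u + Y.1 u) v = _
        rw [map_add, LinearMap.add_apply]
      map_smul' := fun c X => by
        change ω (c • X.1 u) v = _
        rw [map_smul, LinearMap.smul_apply]
        rfl })
    (fun u u' v => LinearMap.ext fun X => by
      change ω (X.1 (u + u')) v = ω (X.1 u) v + ω (X.1 u') v
      rw [map_add, map_add, LinearMap.add_apply])
    (fun c u v => LinearMap.ext fun X => by
      change ω (X.1 (c • u)) v = c • ω (X.1 u) v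
      rw [map_smul, map_smul, LinearMap.smul_apply])
    (fun u v v' => LinearMap.ext fun X => by
      change ω (X.1 u) (v + v') = ω (X.1 u) v + ω (X.1 u) v'
      rw [map_add])
    (fun c u v => LinearMap.ext fun X => by
      change ω (X.1 u) (c • v) = c • ω (X.1 u) v
      rw [map_smul])

/-- The element of `𝔥` which represents the functional `X ↦ ω (X u) v`. -/
def EE (u v : W) : Module.End k W :=
  ((trE 𝔥 hnt).symm (fun2 𝔥 ω u v)).1

theorem EE_mem (u v : W) : EE 𝔥 hnt ω u v ∈ 𝔥 :=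
  ((trE 𝔥 hnt).symm (fun2 𝔥 ω u v)).2

theorem trE_symm (f : Module.Dual k 𝔥) (X : 𝔥) :
    LinearMap.trace k W (((trE 𝔥 hnt).symm f).1 * X.1) = f X := by
  have h1 : trE 𝔥 hnt ((trE 𝔥 hnt).symm f) = f :=
    LinearEquiv.apply_symm_apply _ _
  exact congrArg (fun f : Module.Dual k 𝔥 => f X) h1

theorem EE_trace (u v : W) {X : Module.End k W} (hX : X ∈ 𝔥) :
    LinearMap.trace k W (EE 𝔥 hnt ω u v * X) = ω (X u) v :=
  trE_symm 𝔥 hnt (fun2 𝔥 ω u v) ⟨X, hX⟩

include hnt in
/-- Elements of `𝔥` are determined by traces. -/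
theorem ext_trace {X Y : Module.End k W} (hX : X ∈ 𝔥) (hY : Y ∈ 𝔥)
    (h : ∀ Z ∈ 𝔥, LinearMap.trace k W (X * Z) = LinearMap.trace k W (Y * Z)) : X = Y := by
  rw [← sub_eq_zero]
  refine trace_nondeg 𝔥 hnt (Submodule.sub_mem _ hX hY) fun Z hZ => ?_
  rw [sub_mul, map_sub, h Z hZ, sub_self]

/-- The Casimir form. -/
def casimir : MultilinearMap k (fun _ : Fin 2 × Fin 2 => W) k :=
  ∑ a, mmG (1 : Equiv.Perm (Fin 2 × Fin 2)) (fun l : Fin 2 =>
    if l = 0 then ω.comp (Module.finBasis k 𝔥 a).1 else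
      ω.comp ((trE 𝔥 hnt).symm ((Module.finBasis k 𝔥).coord a)).1)

theorem casimir_apply (v : Fin 2 × Fin 2 → W) :
    casimir 𝔥 hnt ω v =
      ω (EE 𝔥 hnt ω (v (0, 0)) (v (0, 1)) (v (1, 0))) (v (1, 1)) := by
  unfold casimir
  rw [sum_apply]
  have h1 : EE 𝔥 hnt ω (v (0, 0)) (v (0, 1)) =
      ∑ a, ω ((Module.finBasis k 𝔥 a).1 (v (0, 0))) (v (0, 1)) •
        ((trE 𝔥 hnt).symm ((Module.finBasis k 𝔥).coord a)).1 := by
    unfold EE
    have h2 : fun2 𝔥 ω (v (0, 0)) (v (0, 1)) =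
        ∑ a, ω ((Module.finBasis k 𝔥 a).1 (v (0, 0))) (v (0, 1)) •
          (Module.finBasis k 𝔥).coord a := by
      refine (Module.finBasis k 𝔥).ext fun b => ?_
      rw [LinearMap.sum_apply]
      simp only [LinearMap.smul_apply, Basis.coord_apply, Basis.repr_self]
      rw [Finset.sum_eq_single b]
      · rw [Finsupp.single_eq_same, smul_eq_mul, mul_one]
        rfl
      · intro a _ hab
        rw [Finsupp.single_eq_of_ne hab, smul_zero]
      · intro h
        exact absurd (Finset.mem_univ _) h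
    rw [h2, map_sum]
    simp only [map_smul]
    rw [Submodule.coe_sum]
    rfl
  rw [h1, LinearMap.sum_apply, map_sum, LinearMap.sum_apply]
  refine Finset.sum_congr rfl fun a _ => ?_
  rw [mmG_apply, Fin.prod_univ_two, if_pos rfl, if_neg (by decide), LinearMap.smul_apply, map_smul,
    LinearMap.smul_apply, smul_eq_mul]
  rfl

theorem sum22 {M : Type*} [AddCommMonoid M] (f : Fin 2 × Fin 2 → M) :
    ∑ p, f p = f (0, 0) + f (0, 1) + (f (1, 0) + f (1, 1)) := by
  rw [Fintype.sum_prod_type, Fin.sum_univ_two, Fin.sum_univ_two, Fin.sum_univ_two]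

/-- The condition that an endomorphism kills the Casimir form. -/
theorem kills_casimir (Z : Module.End k W) :
    Kills Z (casimir 𝔥 hnt ω) ↔ ∀ u v w x : W,
      ω (EE 𝔥 hnt ω (Z u) v w) x + ω (EE 𝔥 hnt ω u (Z v) w) x +
      (ω (EE 𝔥 hnt ω u v (Z w)) x + ω (EE 𝔥 hnt ω u v w) (Z x)) = 0 := by
  constructor
  · intro h u v w x
    have h1 := h (fun p => if p = (0, 0) then u else if p = (0, 1) then v else
      if p = (1, 0) then w else x)
    rw [sum22] at h1
    simp only [casimir_apply] at h1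
    simpa [Function.update] using h1
  · intro h v
    rw [sum22]
    simp only [casimir_apply]
    have h1 := h (v (0, 0)) (v (0, 1)) (v (1, 0)) (v (1, 1))
    simpa [Function.update] using h1

/-- The Casimir form is killed by the skew endomorphisms that normalize `𝔥`. -/
theorem casimir_kills {Z : Module.End k W} (hZ : IsSkew ω Z)
    (hn : ∀ X ∈ 𝔥, Z * X - X * Z ∈ 𝔥) : Kills Z (casimir 𝔥 hnt ω) := by
  rw [kills_casimir]
  intro u v w x
  have h1 : EE 𝔥 hnt ω (Z u) v + EE 𝔥 hnt ω u (Z v) =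
      Z * EE 𝔥 hnt ω u v - EE 𝔥 hnt ω u v * Z := by
    refine ext_trace 𝔥 hnt (Submodule.add_mem _ (EE_mem ..) (EE_mem ..))
      (hn _ (EE_mem ..)) fun X hX => ?_
    rw [add_mul, map_add, EE_trace _ _ _ _ _ hX, EE_trace _ _ _ _ _ hX]
    have h2 := EE_trace 𝔥 hnt ω u v (hn X hX)
    have h3 : LinearMap.trace k W ((Z * EE 𝔥 hnt ω u v -
        EE 𝔥 hnt ω u v * Z) * X) =
        -LinearMap.trace k W (EE 𝔥 hnt ω u v * (Z * X - X * Z)) := by
      rw [sub_mul, map_sub, mul_sub, map_sub, mul_assoc Z, LinearMap.trace_mul_comm k Z,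
        mul_assoc, mul_assoc]
      ring
    rw [h3, h2, LinearMap.sub_apply, Module.End.mul_apply, Module.End.mul_apply, map_sub,
      LinearMap.sub_apply]
    have h4 := hZ (X u) v
    linear_combination h4
  have h2 : ω (EE 𝔥 hnt ω (Z u) v w) x + ω (EE 𝔥 hnt ω u (Z v) w) x =
      ω ((EE 𝔥 hnt ω (Z u) v + EE 𝔥 hnt ω u (Z v)) w) x := by
    rw [LinearMap.add_apply, map_add, LinearMap.add_apply]
  have h3 := hZ (EE 𝔥 hnt ω u v w) x
  rw [h2, h1, LinearMap.sub_apply, Module.End.mul_apply, Module.End.mul_apply, map_sub,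
    LinearMap.sub_apply]
  linear_combination h3

/-- The Casimir form is invariant under the similitudes that normalize `𝔥`. -/
theorem casimir_inv {g g' : Module.End k W} {χ : k} (h1 : g' * g = 1) (h2 : g * g' = 1)
    (hg : ∀ u v, ω (g u) (g v) = χ * ω u v) (hn : ∀ X ∈ 𝔥, g * X * g' ∈ 𝔥)
    (hn' : ∀ X ∈ 𝔥, g' * X * g ∈ 𝔥) (v : Fin 2 × Fin 2 → W) :
    casimir 𝔥 hnt ω (fun l => g (v l)) = χ ^ 2 * casimir 𝔥 hnt ω v := by
  have key : ∀ u w, EE 𝔥 hnt ω (g u) (g w) =
      χ • (g * EE 𝔥 hnt ω u w * g') := by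
    intro u w
    refine ext_trace 𝔥 hnt (EE_mem ..) (Submodule.smul_mem _ _ (hn _ (EE_mem ..)))
      fun X hX => ?_
    rw [EE_trace _ _ _ _ _ hX, smul_mul_assoc, map_smul, smul_eq_mul, mul_assoc, mul_assoc,
      LinearMap.trace_mul_comm, mul_assoc, EE_trace _ _ _ _ _ (hn' X hX), ← hg]
    have h3 : ∀ y, g (g' y) = y := fun y => by
      rw [← Module.End.mul_apply, h2]
      rfl
    change ω (X (g u)) (g w) = ω (g (g' (X (g u)))) (g w)
    rw [h3]
  rw [casimir_apply, casimir_apply, key, LinearMap.smul_apply, map_smul, LinearMap.smul_apply,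
    Module.End.mul_apply, Module.End.mul_apply, ← Module.End.mul_apply g' g, h1, Module.End.one_apply,
    hg, smul_eq_mul]
  ring

/-- The main point: a skew endomorphism which kills the Casimir form is the sum of an element of `𝔥`
and of an endomorphism that commutes with `𝔥`. -/
theorem mem_of_kills_casimir (hbr : ∀ X ∈ 𝔥, ∀ Y ∈ 𝔥, X * Y - Y * X ∈ 𝔥)
    (hnd : ∀ u, (∀ v, ω u v = 0) → u = 0) {Z : Module.End k W}
    (hZ : IsSkew ω Z) (hk : Kills Z (casimir 𝔥 hnt ω)) :
    ∃ Y ∈ 𝔥, ∀ X ∈ 𝔥, X * (Z - Y) = (Z - Y) * X := by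
  rw [kills_casimir] at hk
  -- `Z` normalizes
  have h1 : ∀ u v, Z * EE 𝔥 hnt ω u v - EE 𝔥 hnt ω u v * Z =
      EE 𝔥 hnt ω (Z u) v + EE 𝔥 hnt ω u (Z v) := by
    intro u v
    ext w
    rw [← sub_eq_zero]
    apply hnd
    intro x
    have h2 := hk u v w x
    have h3 := hZ (EE 𝔥 hnt ω u v w) x
    rw [map_sub, LinearMap.sub_apply, LinearMap.sub_apply, LinearMap.add_apply, map_sub,
      map_add, LinearMap.sub_apply, LinearMap.add_apply, Module.End.mul_apply, Module.End.mul_apply]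
    linear_combination h3 - h2
  have hspan : 𝔥 ≤ Submodule.span k {Y | ∃ u v, Y = EE 𝔥 hnt ω u v} := by
    intro X hX
    by_contra hcon
    -- a functional
    obtain ⟨f, hf1, hf2⟩ := Submodule.exists_dual_map_eq_bot_of_notMem hcon inferInstance
    let f' : Module.Dual k 𝔥 := f.comp 𝔥.subtype
    let Y := (trE 𝔥 hnt).symm f'
    have hY : ∀ Z : 𝔥, LinearMap.trace k W (Y.1 * Z.1) = f Z.1 := fun Z =>
      trE_symm 𝔥 hnt f' Z
    have hY0 : Y.1 = 0 := by
      ext u
      apply hnd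
      intro v
      have h2 := EE_trace 𝔥 hnt ω u v Y.2
      rw [LinearMap.trace_mul_comm, hY ⟨_, EE_mem ..⟩] at h2
      rw [← h2]
      have h3 : f (EE 𝔥 hnt ω u v) ∈ Submodule.map f
          (Submodule.span k {Y | ∃ u v, Y = EE 𝔥 hnt ω u v}) :=
        Submodule.mem_map_of_mem (Submodule.subset_span ⟨u, v, rfl⟩)
      rw [hf2, Submodule.mem_bot] at h3
      exact h3
    apply hf1
    rw [← hY ⟨X, hX⟩, hY0, zero_mul, map_zero]
  have hnorm' : ∀ X ∈ Submodule.span k {Y | ∃ u v, Y = EE 𝔥 hnt ω u v},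
      Z * X - X * Z ∈ 𝔥 := by
    intro X hX
    induction hX using Submodule.span_induction with
    | mem X h =>
      obtain ⟨u, v, rfl⟩ := h
      rw [h1]
      exact Submodule.add_mem _ (EE_mem ..) (EE_mem ..)
    | zero => rw [mul_zero, zero_mul, sub_zero]; exact Submodule.zero_mem _
    | add a b _ _ ha hb =>
      have h1 : Z * (a + b) - (a + b) * Z = (Z * a - a * Z) + (Z * b - b * Z) := by noncomm_ring
      rw [h1]
      exact Submodule.add_mem _ ha hb
    | smul c a _ ha =>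
      have h1 : Z * (c • a) - (c • a) * Z = c • (Z * a - a * Z) := by
        rw [mul_smul_comm, smul_mul_assoc, smul_sub]
      rw [h1]
      exact Submodule.smul_mem _ _ ha
  -- the projection of `Z` to `𝔥`
  let f : Module.Dual k 𝔥 :=
    { toFun := fun X => LinearMap.trace k W (Z * X.1)
      map_add' := fun X Y => by
        change LinearMap.trace k W (Z * (X.1 + Y.1)) = _
        rw [mul_add, map_add]
      map_smul' := fun c X => by
        change LinearMap.trace k W (Z * (c • X.1)) = _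
        rw [mul_smul_comm, map_smul]
        rfl }
  let Y := (trE 𝔥 hnt).symm f
  have hY : ∀ X ∈ 𝔥, LinearMap.trace k W (Y.1 * X) = LinearMap.trace k W (Z * X) := fun X hX =>
    trE_symm 𝔥 hnt f ⟨X, hX⟩
  refine ⟨Y.1, Y.2, fun X hX => ?_⟩
  have h2 : (Z - Y.1) * X - X * (Z - Y.1) ∈ 𝔥 := by
    have h3 : (Z - Y.1) * X - X * (Z - Y.1) = (Z * X - X * Z) - (Y.1 * X - X * Y.1) := by
      noncomm_ring
    rw [h3]
    exact Submodule.sub_mem _ (hnorm' X (hspan hX)) (hbr _ Y.2 _ hX)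
  have h3 := trace_nondeg 𝔥 hnt h2 (fun X' hX' => by
    have h4 : ((Z - Y.1) * X - X * (Z - Y.1)) * X' =
        (Z * (X * X') - Y.1 * (X * X')) - X * ((Z - Y.1) * X') := by noncomm_ring
    have h5 : LinearMap.trace k W (X * ((Z - Y.1) * X')) =
        LinearMap.trace k W (Z * (X' * X)) - LinearMap.trace k W (Y.1 * (X' * X)) := by
      rw [LinearMap.trace_mul_comm, ← map_sub]
      congr 1
    have h6 := hY _ (hbr X hX X' hX')
    rw [mul_sub, mul_sub, map_sub, map_sub] at h6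
    rw [h4, map_sub, map_sub, h5]
    linear_combination -h6)
  exact (sub_eq_zero.1 h3).symm

end

end Pool.Agent.W516.KC2
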